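import Pool.Agent.helper48.EXI.Spec1

set_option autoImplicit false

namespace EXI

open scoped Classical
open AN

theorem CLO_mono_pow {R : Type} [CommRing R] (m : ℤ) (n : ℕ) : (mono m (1 : R)) ^ n = mono (n * m) (1 : R) := by
  induction n with
  | zero =>
    rw [pow_zero, Nat.cast_zero, zero_mul]
    rfl
  | succ n ih =>
    rw [pow_succ, ih, mono_mul_mono, mul_one]
    congr 1
    push_cast
    ring

theorem CLO_fx {R : Type} [CommRing R] (N : ℕ) : fx (fun _ : Fin N => (0 : R)) = mono (-(N : ℤ)) 1 := by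
  unfold fx
  have h0 : ∀ i : Fin N, mono (-1) (1 : R) - LS.C ((fun _ : Fin N => (0 : R)) i) = mono (-1) (1 : R) := by
    intro i
    show mono (-1) (1 : R) - LS.C (0 : R) = mono (-1) (1 : R)
    rw [map_zero, sub_zero]
  rw [Finset.prod_congr rfl (fun i _ => h0 i), Finset.prod_const, Finset.card_univ, Fintype.card_fin, CLO_mono_pow]
  congr 1
  ring

theorem CLO_pow3 (g : ℕ) : 2 * g ≤ 3 ^ g := by
  induction g with
  | zero => exact Nat.zero_le _
  | succ g ih =>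
    have h1 : 1 ≤ 3 ^ g := Nat.one_le_pow _ _ (by norm_num)
    rw [pow_succ]
    omega

theorem CLO_HH {p : ℕ} (hp : p ≠ 2) [Fact p.Prime] (g : ℕ) {K : Type} [Field K] (i j : Fin g)
    (h : HH p g (fun _ : Fin (2 * g + 1) => (0 : K)) i j ≠ 0) :
    2 * (g : ℤ) - 1 - 2 * (i : ℕ) = p * (2 * (g : ℤ) - 1 - 2 * (j : ℕ)) := by
  have hp1 : p.Prime := Fact.out
  have ho : Odd p := hp1.odd_of_ne_two hp
  obtain ⟨m, hm⟩ := ho
  have hm2 : (p - 1) / 2 = m := by omega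
  unfold HH at h
  rw [CLO_fx, CLO_mono_pow, cf_mono] at h
  have h1 : (((i : ℕ) : ℤ) + 1 - p * (((j : ℕ) : ℤ) + 1)) = (((p - 1) / 2 : ℕ) : ℤ) * (-((2 * g + 1 : ℕ) : ℤ)) := by
    by_contra hne
    exact h (if_neg hne)
  rw [hm2] at h1
  have h2 : (p : ℤ) = 2 * m + 1 := by rw [hm]; push_cast; ring
  push_cast at h1
  rw [h2] at h1 ⊢
  linarith

theorem CLO_ind {p : ℕ} (hp : p ≠ 2) [Fact p.Prime] (g : ℕ) {K : Type} [Field K] (n : ℕ) : ∀ (i j : Fin g),
    MN p (HH p g (fun _ : Fin (2 * g + 1) => (0 : K))) n i j ≠ 0 →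
    2 * (g : ℤ) - 1 - 2 * (i : ℕ) = p ^ n * (2 * (g : ℤ) - 1 - 2 * (j : ℕ)) := by
  induction n with
  | zero =>
    intro i j h
    have h1 : i = j := by
      by_contra hne
      exact h (Matrix.one_apply_ne hne)
    rw [h1, pow_zero, one_mul]
  | succ n ih =>
    intro i j h
    have h1 : ∑ l, HH p g (fun _ : Fin (2 * g + 1) => (0 : K)) i l * (MN p (HH p g (fun _ : Fin (2 * g + 1) => (0 : K))) n l j) ^ p ≠ 0 := h
    obtain ⟨l, -, hl⟩ := Finset.exists_ne_zero_of_sum_ne_zero h1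
    have h2 := CLO_HH hp g i l (left_ne_zero_of_mul hl)
    have h3 : MN p (HH p g (fun _ : Fin (2 * g + 1) => (0 : K))) n l j ≠ 0 := by
      intro h0
      apply right_ne_zero_of_mul hl
      rw [h0, zero_pow (Fact.out : p.Prime).ne_zero]
    rw [h2, ih l j h3, pow_succ]
    ring

/-- **CLO** -/
theorem CLO : CLO_stmt := by
  intro p _ g K _ _ hp
  ext i j
  by_contra h
  have h1 := CLO_ind hp g g i j h
  have hj : (j : ℕ) < g := j.2
  have hp3 : 3 ≤ p := by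
    have h2 := (Fact.out : p.Prime).two_le
    omega
  have h3 : 3 ^ g ≤ p ^ g := Nat.pow_le_pow_left hp3 g
  have h4 : 2 * g ≤ p ^ g := (CLO_pow3 g).trans h3
  have h5 : (2 * (g : ℤ)) ≤ (p : ℤ) ^ g := by exact_mod_cast h4
  have h6 : (1 : ℤ) ≤ 2 * (g : ℤ) - 1 - 2 * (j : ℕ) := by omega
  have h7 : (p : ℤ) ^ g * 1 ≤ (p : ℤ) ^ g * (2 * (g : ℤ) - 1 - 2 * (j : ℕ)) :=
    mul_le_mul_of_nonneg_left h6 (by positivity)
  have h8 : (0 : ℤ) ≤ ((i : ℕ) : ℤ) := Int.natCast_nonneg _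
  linarith

end EXI
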